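import Pool.Agent.T9h20.TG.Spec

/-!
# Piece K of the project TG: counting zeros with reference points
-/

set_option autoImplicit false

open MeasureTheory Set Filter Topology

namespace Pool.Agent.T9h96.TG

open Pool.Agent.T9h20.TA (mon mx)
open Pool.Agent.T9h20.TE (DD)
open Pool.Agent.T9h20.TF (Fr Fc MM SDec SZero)
open Pool.Agent.T9h20.TG

theorem Fc_ofReal {k q t : ℕ} (b d : Fin k → ℝ) (al : Fin k → Fin q → ℕ)
    (c a : Fin q → Fin t → ℝ) (y : ℝ) :
    Fc b d al c a (y : ℂ) = ((Fr b d al c a y : ℝ) : ℂ) := by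
  unfold Fc Fr mon
  push_cast
  rfl

theorem differentiable_Fc {k q t : ℕ} (b d : Fin k → ℝ) (al : Fin k → Fin q → ℕ)
    (c a : Fin q → Fin t → ℝ) : Differentiable ℂ (Fc b d al c a) := by
  unfold Fc
  fun_prop

/-- the number of zeros near a reference point -/
theorem card_le_of_disc (hZ : SZero) {k q t : ℕ} (b d : Fin k → ℝ) (al : Fin k → Fin q → ℕ)
    (c' a : Fin q → Fin t → ℝ) (x' R M E : ℝ) (n : ℕ) (Z : Finset ℝ) (hR : 0 < R)
    (hM : M < |Fr b d al c' a x'| * 3 ^ (n + 1))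
    (hE : ∀ z : ℂ, ‖z - x'‖ ≤ R → ‖Fc b d al c' a z * Complex.exp (-(E * (z - x')))‖ ≤ M)
    (hZ0 : ∀ z ∈ Z, |z - x'| ≤ R / 4 ∧ Fr b d al c' a z = 0) : Z.card ≤ n := by
  by_contra hcon
  have hcon' : n + 1 ≤ Z.card := by omega
  have hf : Differentiable ℂ
      (fun z : ℂ => Fc b d al c' a z * Complex.exp (-((E : ℂ) * (z - (x' : ℂ))))) := by
    have h1 := differentiable_Fc b d al c' a
    fun_prop
  have h1 := hZ (fun z : ℂ => Fc b d al c' a z * Complex.exp (-((E : ℂ) * (z - (x' : ℂ)))))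
    (x' : ℂ) R M (Z.image fun z => ((z : ℝ) : ℂ)) hR hf (fun z hz => hE z hz) (by
      intro z hz
      obtain ⟨y, hy, rfl⟩ := Finset.mem_image.1 hz
      obtain ⟨g1, g2⟩ := hZ0 y hy
      refine ⟨?_, ?_⟩
      · rw [← Complex.ofReal_sub, Complex.norm_real, Real.norm_eq_abs]
        exact g1
      · simp only [Fc_ofReal, g2, Complex.ofReal_zero, zero_mul])
  rw [Finset.card_image_of_injective _ Complex.ofReal_injective] at h1
  simp only [sub_self, mul_zero, neg_zero, Complex.exp_zero, mul_one, Fc_ofReal,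
    Complex.norm_real, Real.norm_eq_abs] at h1
  have hpow : (0 : ℝ) < (1 / 3) ^ Z.card := by positivity
  have h2 : M * (1 / 3) ^ Z.card < |Fr b d al c' a x'| * 3 ^ (n + 1) * (1 / 3) ^ Z.card :=
    mul_lt_mul_of_pos_right hM hpow
  have h3 : (3 : ℝ) ^ (n + 1) * (1 / 3) ^ Z.card ≤ 1 := by
    calc (3 : ℝ) ^ (n + 1) * (1 / 3) ^ Z.card ≤ 3 ^ Z.card * (1 / 3) ^ Z.card := by
          apply mul_le_mul_of_nonneg_right _ hpow.le
          exact pow_le_pow_right₀ (by norm_num) hcon'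
      _ = 1 := by
          rw [← mul_pow]
          norm_num
  have h4 : |Fr b d al c' a x'| * 3 ^ (n + 1) * (1 / 3) ^ Z.card ≤ |Fr b d al c' a x'| := by
    rw [mul_assoc]
    exact mul_le_of_le_one_right (abs_nonneg _) h3
  linarith

/-- **Piece K.** -/
theorem sCount : SCov → SLocG → SBdU → SDec → SZero → SCount := by
  intro hCov hLoc hBd hDec hZ k q t m _ b d al c a D Y hD hY hal hd ha hc hb
  classical
  obtain ⟨X0, nx, s0, hX0, hnx, hcover, hdom⟩ := hDec q t c a hc Y hY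
  have hmD : 0 < ((m : ℝ) + 1) * D := by positivity
  have hη : 0 < 1 / (((m : ℝ) + 1) * D) := by positivity
  have e1 : 2 * Y / (1 / (((m : ℝ) + 1) * D)) = 2 * Y * (((m : ℝ) + 1) * D) := by
    field_simp
  have hlog : 0 ≤ Real.log (1 + 2 * Y * (((m : ℝ) + 1) * D)) := by
    apply Real.log_nonneg
    have : 0 < 2 * Y * (((m : ℝ) + 1) * D) := by positivity
    linarith
  have hblock : ∀ x ∈ X0, ∃ (B g : Finset ℝ), (∀ x' ∈ g, x' ∈ Icc x (nx x)) ∧
      ((g.card : ℝ) ≤ 20 * ((k : ℝ) ^ 2 + 2) * Real.log (1 + 2 * Y * (((m : ℝ) + 1) * D)) + 1) ∧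
      (∀ y ∈ Icc x (nx x), ∃ x' ∈ g, ∀ b ∈ B, |y - x'| ≤ (1 / (((m : ℝ) + 1) * D) + |x' - b|) / 8) ∧
      ∀ y ∈ Icc x (nx x), ∀ R : ℝ, 0 < R →
        (∀ x' ∈ B, R ≤ (1 / (((m : ℝ) + 1) * D) + |y - x'|) / 2) →
        ∃ (i0 : Fin k) (E : ℝ), ∀ (f : ℂ → ℂ) (T : ℝ), 0 ≤ T →
          (∀ z, ‖f z‖ ≤ T * ∑ i, MM b d al c a i z.re) → ∀ z : ℂ, ‖z - y‖ ≤ R →
            ‖f z * Complex.exp (-(E * (z - y)))‖ ≤ 3 * (k * T) * MM b d al c a i0 y := by
    intro x hx
    obtain ⟨hx1, hx2, hx3⟩ := hnx x hx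
    obtain ⟨B, hBc, hBI, hB⟩ := hLoc k q t m b d al c a D hD hal hd ha (s0 x) x (nx x) hx1 hc hb
      (hdom x hx)
    obtain ⟨g, hg1, hg2, hg3⟩ := hCov B (1 / (((m : ℝ) + 1) * D)) Y x (nx x) hη hY hx2 hx1.le hx3
      (fun y hy => by
        have := hBI y hy
        rw [abs_le]
        constructor <;> linarith [this.1, this.2])
    refine ⟨B, g, hg1, ?_, hg3, hB⟩
    rw [e1] at hg2
    refine hg2.trans ?_
    have hB' : (B.card : ℝ) ≤ (k : ℝ) ^ 2 + 2 := by exact_mod_cast hBc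
    gcongr
  choose! B g hg1 hg2 hg3 hg4 using hblock
  refine ⟨X0.biUnion g, ?_, ?_⟩
  · have h1 : (((X0.biUnion g).card : ℕ) : ℝ) ≤ ∑ x ∈ X0, ((g x).card : ℝ) := by
      exact_mod_cast Finset.card_biUnion_le
    have h2 : ∑ x ∈ X0, ((g x).card : ℝ) ≤ X0.card •
        (20 * ((k : ℝ) ^ 2 + 2) * Real.log (1 + 2 * Y * (((m : ℝ) + 1) * D)) + 1) :=
      Finset.sum_le_card_nsmul _ _ _ hg2
    rw [nsmul_eq_mul] at h2
    have h3 : (X0.card : ℝ) ≤ 2 * q * t + 1 := by exact_mod_cast hX0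
    refine h1.trans (h2.trans ?_)
    apply mul_le_mul_of_nonneg_right h3
    positivity
  · intro c' hc' n hbig Z hZ0
    have hT : (0 : ℝ) ≤ (2 * t : ℝ) ^ m := by positivity
    have hcard : ∀ x' ∈ X0.biUnion g, (Z.filter fun z => ∃ x ∈ X0, x' ∈ g x ∧
        ∀ b ∈ B x, |z - x'| ≤ (1 / (((m : ℝ) + 1) * D) + |x' - b|) / 8).card ≤ n := by
      intro x' hx'
      rcases (Z.filter fun z => ∃ x ∈ X0, x' ∈ g x ∧
        ∀ b ∈ B x, |z - x'| ≤ (1 / (((m : ℝ) + 1) * D) + |x' - b|) / 8).eq_empty_or_nonempty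
        with hemp | hne
      · rw [hemp, Finset.card_empty]
        exact Nat.zero_le n
      · obtain ⟨z0, hz0, hmax⟩ := Finset.exists_max_image _ (fun z => |z - x'|) hne
        obtain ⟨-, x, hx, hx'g, hclose⟩ := Finset.mem_filter.1 hz0
        have hR : 0 < max (4 * |z0 - x'|) (1 / (((m : ℝ) + 1) * D) / 2) :=
          lt_of_lt_of_le (by positivity) (le_max_right _ _)
        obtain ⟨i0, E, hE⟩ := hg4 x hx x' (hg1 x hx x' hx'g)
          (max (4 * |z0 - x'|) (1 / (((m : ℝ) + 1) * D) / 2)) hR (fun b hb => by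
            apply max_le
            · have := hclose b hb
              linarith
            · have := abs_nonneg (x' - b)
              linarith)
        refine card_le_of_disc hZ b d al c' a x' _ (3 * (k * (2 * t : ℝ) ^ m) *
          MM b d al c a i0 x') E n _ hR (hbig x' hx' i0) (fun z hz =>
          hE (Fc b d al c' a) ((2 * t : ℝ) ^ m) hT (hBd k q t m b d al c c' a hal hc') z hz) ?_
        intro z hz
        refine ⟨?_, (hZ0 z (Finset.mem_filter.1 hz).1).2⟩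
        have h1 := hmax z hz
        have h2 := le_max_left (4 * |z0 - x'|) (1 / (((m : ℝ) + 1) * D) / 2)
        linarith
    have hsub : Z ⊆ (X0.biUnion g).biUnion (fun x' => Z.filter fun z => ∃ x ∈ X0, x' ∈ g x ∧
        ∀ b ∈ B x, |z - x'| ≤ (1 / (((m : ℝ) + 1) * D) + |x' - b|) / 8) := by
      intro z hz
      obtain ⟨x, hx, hzx⟩ := hcover z (hZ0 z hz).1
      obtain ⟨x', hx', hcl⟩ := hg3 x hx z ⟨hzx.1, hzx.2.le⟩
      rw [Finset.mem_biUnion]
      exact ⟨x', Finset.mem_biUnion.2 ⟨x, hx, hx'⟩, Finset.mem_filter.2 ⟨hz, x, hx, hx', hcl⟩⟩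
    refine (Finset.card_le_card hsub).trans (Finset.card_biUnion_le.trans ?_)
    exact (Finset.sum_le_card_nsmul _ _ _ hcard).trans_eq (by rw [smul_eq_mul])

end Pool.Agent.T9h96.TG
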