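import Pool.Agent.T9h20.TG.Spec2
import Pool.Agent.T9h96.TG.Count

/-!
# Piece KG of the project TG: counting zeros without a window
-/

set_option autoImplicit false

open MeasureTheory Set Filter Topology

namespace Pool.Agent.T9h96.TG

open Pool.Agent.T9h20.TA (mon mx)
open Pool.Agent.T9h20.TE (DD)
open Pool.Agent.T9h20.TF (Fr Fc MM SDec SZero)
open Pool.Agent.T9h20.TG

/-- **Piece KG.** -/
theorem sCountG : SCovG → SLocG → SBdU → SGap → SDec → SZero → SCountG := by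
  intro hCov hLoc hBd hGap hDec hZ k q t m _ b d al c a D M G hD hM hG hal hd ha hc hb
  classical
  obtain ⟨X0, nx, s0, hX0, hnx, hcover, hdom⟩ := hDec q t c (fun j s => (a j s : ℝ)) hc M hM
  have hmD : 0 < ((m : ℝ) + 1) * D := by positivity
  have hη : 0 < 1 / (((m : ℝ) + 1) * D) := by positivity
  have e1 : 4 * G / (1 / (((m : ℝ) + 1) * D)) = 4 * G * (((m : ℝ) + 1) * D) := by
    field_simp
  have hlog : 0 ≤ Real.log (1 + 4 * G * (((m : ℝ) + 1) * D)) := by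
    apply Real.log_nonneg
    have : 0 < 4 * G * (((m : ℝ) + 1) * D) := by positivity
    linarith
  have hblock : ∀ x ∈ X0, ∃ (B g h : Finset ℝ), (∀ x' ∈ g, x' ∈ Icc x (nx x)) ∧
      ((g.card : ℝ) + h.card ≤ 2 * ((k : ℝ) ^ 2 + 2) *
        (40 * ((k : ℝ) ^ 2 + 2) * Real.log (1 + 4 * G * (((m : ℝ) + 1) * D)) + 2)) ∧
      (∀ c' : Fin q → Fin t → ℝ, (∀ j s, |c' j s| ≤ 2 * |c j s|) →
        (∀ x ∈ h, ∀ i, 2 * (k * (m + 1) * (2 * t : ℝ) ^ m) * Real.exp (-G) *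
          MM b (fun i => (d i : ℝ)) al c (fun j s => (a j s : ℝ)) i x <
          |Fr b (fun i => (d i : ℝ)) al c' (fun j s => (a j s : ℝ)) x|) →
        ∀ y ∈ Icc x (nx x), Fr b (fun i => (d i : ℝ)) al c' (fun j s => (a j s : ℝ)) y = 0 →
          ∃ x' ∈ g, ∀ b ∈ B, |y - x'| ≤ (1 / (((m : ℝ) + 1) * D) + |x' - b|) / 8) ∧
      ∀ y ∈ Icc x (nx x), ∀ R : ℝ, 0 < R →
        (∀ x' ∈ B, R ≤ (1 / (((m : ℝ) + 1) * D) + |y - x'|) / 2) →
        ∃ (i0 : Fin k) (E : ℝ), ∀ (f : ℂ → ℂ) (T : ℝ), 0 ≤ T →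
          (∀ z, ‖f z‖ ≤ T * ∑ i, MM b (fun i => (d i : ℝ)) al c (fun j s => (a j s : ℝ)) i z.re) →
            ∀ z : ℂ, ‖z - y‖ ≤ R → ‖f z * Complex.exp (-(E * (z - y)))‖ ≤
              3 * (k * T) * MM b (fun i => (d i : ℝ)) al c (fun j s => (a j s : ℝ)) i0 y := by
    intro x hx
    obtain ⟨hx1, hx2, hx3⟩ := hnx x hx
    obtain ⟨B1, hB1c, hB1I, hB1⟩ := hLoc k q t m b (fun i => (d i : ℝ)) al c
      (fun j s => (a j s : ℝ)) D hD hal (fun i => ⟨Nat.cast_nonneg _, hd i⟩)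
      (fun j s => ⟨Nat.cast_nonneg _, ha j s⟩) (s0 x) x (nx x) hx1 hc hb (hdom x hx)
    obtain ⟨B2, hB2c, hpB, hrB, hB2I, hB2⟩ := hGap k q t m b d al c a hal (s0 x) x (nx x) hx1 hc hb
      (hdom x hx)
    have hBI : ∀ y ∈ B1 ∪ B2, x ≤ y ∧ y ≤ nx x := by
      intro y hy
      rcases Finset.mem_union.1 hy with h | h
      · exact hB1I y h
      · exact hB2I y h
    have hBc : ((B1 ∪ B2).card : ℝ) ≤ 2 * ((k : ℝ) ^ 2 + 2) := by
      have h1 : (B1 ∪ B2).card ≤ 2 * (k ^ 2 + 2) := by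
        have := Finset.card_union_le B1 B2
        omega
      exact_mod_cast h1
    obtain ⟨g, hg1, hg2, hg3⟩ := hCov (B1 ∪ B2) (1 / (((m : ℝ) + 1) * D)) G x (nx x) hη hG hx1.le
      hBI
    have hrep : ∀ β : ℝ, ∃ y : ℝ, (∃ y', y' ∈ Icc x (nx x) ∧ (∀ b ∈ B1 ∪ B2, G ≤ |y' - b|) ∧
        β < y' ∧ ∀ b ∈ B1 ∪ B2, ¬ (β < b ∧ b < y')) →
        (y ∈ Icc x (nx x) ∧ (∀ b ∈ B1 ∪ B2, G ≤ |y - b|) ∧
        β < y ∧ ∀ b ∈ B1 ∪ B2, ¬ (β < b ∧ b < y)) := by
      intro β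
      by_cases h : ∃ y', y' ∈ Icc x (nx x) ∧ (∀ b ∈ B1 ∪ B2, G ≤ |y' - b|) ∧
        β < y' ∧ ∀ b ∈ B1 ∪ B2, ¬ (β < b ∧ b < y')
      · obtain ⟨y, hy⟩ := h
        exact ⟨y, fun _ => hy⟩
      · exact ⟨0, fun h' => absurd h' h⟩
    choose ρ hρ using hrep
    refine ⟨B1, g, (B1 ∪ B2).image ρ, hg1, ?_, ?_, hB1⟩
    · rw [e1] at hg2
      have h1 : ((((B1 ∪ B2).image ρ).card : ℕ) : ℝ) ≤ 2 * ((k : ℝ) ^ 2 + 2) := by
        refine le_trans ?_ hBc
        exact_mod_cast Finset.card_image_le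
      have h2 : ((B1 ∪ B2).card : ℝ) *
          (20 * (B1 ∪ B2).card * Real.log (1 + 4 * G * (((m : ℝ) + 1) * D)) + 1) ≤
          2 * ((k : ℝ) ^ 2 + 2) * (20 * (2 * ((k : ℝ) ^ 2 + 2)) *
            Real.log (1 + 4 * G * (((m : ℝ) + 1) * D)) + 1) := by
        gcongr
      have h3 : 2 * ((k : ℝ) ^ 2 + 2) * (20 * (2 * ((k : ℝ) ^ 2 + 2)) *
            Real.log (1 + 4 * G * (((m : ℝ) + 1) * D)) + 1) + 2 * ((k : ℝ) ^ 2 + 2) =
          2 * ((k : ℝ) ^ 2 + 2) *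
            (40 * ((k : ℝ) ^ 2 + 2) * Real.log (1 + 4 * G * (((m : ℝ) + 1) * D)) + 2) := by
        ring
      linarith
    · intro c' hc' hbig y hy hy0
      by_cases hnear : ∃ b ∈ B1 ∪ B2, |y - b| < G
      · obtain ⟨x', hx', hcl⟩ := hg3 y hy hnear
        exact ⟨x', hx', fun b hb' => hcl b (Finset.mem_union_left _ hb')⟩
      · exfalso
        have hfar : ∀ b ∈ B1 ∪ B2, G ≤ |y - b| := fun b hb' =>
          not_lt.1 fun h => hnear ⟨b, hb', h⟩
        have hne : ((B1 ∪ B2).filter fun b => b ≤ y).Nonempty :=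
          ⟨x, Finset.mem_filter.2 ⟨Finset.mem_union_right _ hpB, hy.1⟩⟩
        obtain ⟨β, hβ, hmax⟩ := Finset.exists_max_image _ (fun b : ℝ => b) hne
        obtain ⟨hβB, hβy⟩ := Finset.mem_filter.1 hβ
        have hβlt : β < y := by
          refine lt_of_le_of_ne hβy fun h => ?_
          have := hfar β hβB
          rw [h, sub_self, abs_zero] at this
          linarith
        have hno : ∀ b ∈ B1 ∪ B2, ¬ (β < b ∧ b < y) := by
          rintro b hb' ⟨h1, h2⟩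
          have := hmax b (Finset.mem_filter.2 ⟨hb', h2.le⟩)
          linarith
        obtain ⟨r1, r2, r3, r4⟩ := hρ β ⟨y, hy, hfar, hβlt, hno⟩
        obtain ⟨i, hi⟩ := hB2 c' hc' G (ρ β) y hG r1 hy
          (fun x' hx' => ⟨r2 x' (Finset.mem_union_right _ hx'),
            hfar x' (Finset.mem_union_right _ hx')⟩)
          (fun x' hx' => ⟨fun h => by
              refine hno x' (Finset.mem_union_right _ hx') ⟨?_, h.2⟩
              exact r3.trans h.1,
            fun h => by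
              refine r4 x' (Finset.mem_union_right _ hx') ⟨?_, h.2⟩
              exact hβlt.trans h.1⟩) hy0
        have := hbig (ρ β) (Finset.mem_image_of_mem ρ hβB) i
        linarith
  choose! B g h hg1 hg2 hg3 hg4 using hblock
  refine ⟨insert 0 (X0.biUnion g ∪ X0.biUnion h), ⟨0, Finset.mem_insert_self _ _⟩, ?_, ?_⟩
  · have h1 : ((insert (0 : ℝ) (X0.biUnion g ∪ X0.biUnion h)).card : ℝ) ≤
        (∑ x ∈ X0, ((g x).card : ℝ) + ∑ x ∈ X0, ((h x).card : ℝ)) + 1 := by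
      have a1 : (insert (0 : ℝ) (X0.biUnion g ∪ X0.biUnion h)).card ≤
          (X0.biUnion g ∪ X0.biUnion h).card + 1 := Finset.card_insert_le _ _
      have a2 := Finset.card_union_le (X0.biUnion g) (X0.biUnion h)
      have a3 : (X0.biUnion g).card ≤ ∑ x ∈ X0, (g x).card := Finset.card_biUnion_le
      have a4 : (X0.biUnion h).card ≤ ∑ x ∈ X0, (h x).card := Finset.card_biUnion_le
      have a5 : (insert (0 : ℝ) (X0.biUnion g ∪ X0.biUnion h)).card ≤
          (∑ x ∈ X0, (g x).card + ∑ x ∈ X0, (h x).card) + 1 := by omega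
      exact_mod_cast a5
    rw [← Finset.sum_add_distrib] at h1
    have h2 : ∑ x ∈ X0, (((g x).card : ℝ) + (h x).card) ≤ X0.card •
        (2 * ((k : ℝ) ^ 2 + 2) *
        (40 * ((k : ℝ) ^ 2 + 2) * Real.log (1 + 4 * G * (((m : ℝ) + 1) * D)) + 2)) :=
      Finset.sum_le_card_nsmul _ _ _ hg2
    rw [nsmul_eq_mul] at h2
    have h3 : (X0.card : ℝ) ≤ 2 * q * t + 1 := by exact_mod_cast hX0
    have h4 : (X0.card : ℝ) * (2 * ((k : ℝ) ^ 2 + 2) *
        (40 * ((k : ℝ) ^ 2 + 2) * Real.log (1 + 4 * G * (((m : ℝ) + 1) * D)) + 2)) ≤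
        (2 * q * t + 1) * (2 * ((k : ℝ) ^ 2 + 2) *
        (40 * ((k : ℝ) ^ 2 + 2) * Real.log (1 + 4 * G * (((m : ℝ) + 1) * D)) + 2)) := by
      apply mul_le_mul_of_nonneg_right h3
      positivity
    linarith
  · intro c' hc' n hbig hbig2 Z hZ0
    have hT : (0 : ℝ) ≤ (2 * t : ℝ) ^ m := by positivity
    have hgX : ∀ x' ∈ X0.biUnion g, x' ∈ insert (0 : ℝ) (X0.biUnion g ∪ X0.biUnion h) :=
      fun x' hx' => Finset.mem_insert_of_mem (Finset.mem_union_left _ hx')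
    have hcard : ∀ x' ∈ X0.biUnion g, (Z.filter fun z => ∃ x ∈ X0, x' ∈ g x ∧
        ∀ b ∈ B x, |z - x'| ≤ (1 / (((m : ℝ) + 1) * D) + |x' - b|) / 8).card ≤ n := by
      intro x' hx'
      rcases (Z.filter fun z => ∃ x ∈ X0, x' ∈ g x ∧
        ∀ b ∈ B x, |z - x'| ≤ (1 / (((m : ℝ) + 1) * D) + |x' - b|) / 8).eq_empty_or_nonempty
        with hemp | hne
      · rw [hemp, Finset.card_empty]
        exact Nat.zero_le n
      · obtain ⟨z0, hz0, hmax⟩ := Finset.exists_max_image _ (fun z => |z - x'|) hne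
        obtain ⟨-, x, hx, hx'g, hclose⟩ := Finset.mem_filter.1 hz0
        have hR : 0 < max (4 * |z0 - x'|) (1 / (((m : ℝ) + 1) * D) / 2) :=
          lt_of_lt_of_le (by positivity) (le_max_right _ _)
        obtain ⟨i0, E, hE⟩ := hg4 x hx x' (hg1 x hx x' hx'g)
          (max (4 * |z0 - x'|) (1 / (((m : ℝ) + 1) * D) / 2)) hR (fun b hb => by
            apply max_le
            · have := hclose b hb
              linarith
            · have := abs_nonneg (x' - b)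
              linarith)
        refine card_le_of_disc hZ b (fun i => (d i : ℝ)) al c' (fun j s => (a j s : ℝ)) x' _
          (3 * (k * (2 * t : ℝ) ^ m) *
          MM b (fun i => (d i : ℝ)) al c (fun j s => (a j s : ℝ)) i0 x') E n _ hR
          (hbig x' (hgX x' hx') i0) (fun z hz =>
          hE (Fc b (fun i => (d i : ℝ)) al c' (fun j s => (a j s : ℝ))) ((2 * t : ℝ) ^ m) hT
            (hBd k q t m b (fun i => (d i : ℝ)) al c c' (fun j s => (a j s : ℝ)) hal hc') z hz) ?_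
        intro z hz
        refine ⟨?_, (hZ0 z (Finset.mem_filter.1 hz).1).2⟩
        have h1 := hmax z hz
        have h2 := le_max_left (4 * |z0 - x'|) (1 / (((m : ℝ) + 1) * D) / 2)
        linarith
    have hsub : Z ⊆ (X0.biUnion g).biUnion (fun x' => Z.filter fun z => ∃ x ∈ X0, x' ∈ g x ∧
        ∀ b ∈ B x, |z - x'| ≤ (1 / (((m : ℝ) + 1) * D) + |x' - b|) / 8) := by
      intro z hz
      obtain ⟨x, hx, hzx⟩ := hcover z (hZ0 z hz).1
      obtain ⟨x', hx', hcl⟩ := hg3 x hx c' hc' (fun y hy => hbig2 y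
        (Finset.mem_insert_of_mem (Finset.mem_union_right _
          (Finset.mem_biUnion.2 ⟨x, hx, hy⟩)))) z ⟨hzx.1, hzx.2.le⟩ (hZ0 z hz).2
      rw [Finset.mem_biUnion]
      exact ⟨x', Finset.mem_biUnion.2 ⟨x, hx, hx'⟩, Finset.mem_filter.2 ⟨hz, x, hx, hx', hcl⟩⟩
    have hfin : Z.card ≤ (X0.biUnion g).card * n := by
      refine (Finset.card_le_card hsub).trans (Finset.card_biUnion_le.trans ?_)
      exact (Finset.sum_le_card_nsmul _ _ _ hcard).trans_eq (by rw [smul_eq_mul])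
    refine hfin.trans (Nat.mul_le_mul_right n (Finset.card_le_card ?_))
    exact fun x' hx' => hgX x' hx'

end Pool.Agent.T9h96.TG
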